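import Pool.Agent.R592.Hd.Ground

/-!
# `𝔡(≠*_{∅})` and `𝔡^𝔠_{𝔟(≠*)}` can be different

We force with the product of the forcing with countable partial functions which adds `λ` many
functions from `ω₁` to `ω₁`, and of the random forcing for `κ` random reals, where `κ = ℶ_{ω₁}`
and `λ = (2 ^ κ)⁺`. In the extension `κ` is a cardinal of cofinality `ω₁`,
`𝔠 = 𝔟(≠*) = κ`, every function from `𝔠` to `ω ^ ω` is evaded by one of `(2 ^ κ)^V` many
functions given by the random reals, and no `(2 ^ κ)^V` many functions from `κ` to `κ` are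
dominating.

The forcing language is that of `Pool.Agent.TH773.PSet.Defs`: a sentence is a regular open
subset of the forcing `P`, and `p ∈ φ` says that `p` forces `φ`.
-/

set_option autoImplicit false

open Cardinal Pool.Agent.R592.Hd

namespace Pool.Agent.Results.MP_7b1404_lc.SingularRandom

/-- It is consistent that `𝔡(≠*_{∅}) ≠ 𝔡^𝔠_{𝔟(≠*)}`.

(1) For some `κ` and `ν` some nonempty forcing forces the sentence `Model κ ν`.
(2) The meaning of the sentence `Model κ ν` (its value over the trivial forcing) is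
`κ = 𝔠 = 𝔟(≠*)` and `𝔡(≠*_{∅}) ≤ ν < 𝔡^𝔠_{𝔟(≠*)}`.
(3) So it implies that `𝔡(≠*_{∅}) ≠ 𝔡^𝔠_{𝔟(≠*)}`. -/
theorem result :
    (∃ (κ ν : Cardinal.{0}) (P : Type) (_ : Preorder P), Nonempty P ∧
      ∀ p : P, p ∈ Model.{0, 0} P κ ν) ∧
    (∀ (κ ν : Cardinal.{0}) (p : Unit), p ∈ Model.{0, 0} Unit κ ν ↔
      (κ = 𝔠 ∧ bNe = 𝔠 ∧ dEmpty ≤ ν ∧ ν < dHigh 𝔠 bNe)) ∧
    (∀ (κ ν : Cardinal.{0}) (p : Unit), p ∈ Model.{0, 0} Unit κ ν → dEmpty ≠ dHigh 𝔠 bNe) := by
  refine ⟨exists_model, fun κ ν p => unit_model, fun κ ν p hp => ?_⟩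
  obtain ⟨-, -, h1, h2⟩ := unit_model.1 hp
  exact (h1.trans_lt h2).ne

end Pool.Agent.Results.MP_7b1404_lc.SingularRandom
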